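import Pool.Agent.N662.FP.Stm2

set_option autoImplicit false

/-! # Project FL, part 2: fast self-avoiding paths are unlikely -/

open MeasureTheory ProbabilityTheory Filter Set
open scoped ENNReal Pointwise Topology

namespace Pool.Agent.N896.FM

open Pool.Agent.N662.FP

/-- Laplace transform of the exponential law at `15`. -/
theorem laplace15 :
    ∫⁻ s, ENNReal.ofReal (Real.exp (-(15 * s))) ∂(expMeasure 1) = ENNReal.ofReal (1 / 16) := by
  have h0 : expMeasure 1 = volume.withDensity (exponentialPDF 1) := rfl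
  have hm : Measurable (exponentialPDF 1) := by
    unfold exponentialPDF
    exact (measurable_exponentialPDFReal 1).ennreal_ofReal
  rw [h0, lintegral_withDensity_eq_lintegral_mul _ hm (by fun_prop)]
  have h1 : ∀ s : ℝ, (exponentialPDF 1 * fun s => ENNReal.ofReal (Real.exp (-(15 * s)))) s =
      ENNReal.ofReal (1 / 16) * exponentialPDF 16 s := by
    intro s
    rw [Pi.mul_apply]
    rcases lt_or_ge s 0 with hs | hs
    · rw [exponentialPDF_of_neg hs, exponentialPDF_of_neg hs]; simp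
    · rw [exponentialPDF_of_nonneg hs, exponentialPDF_of_nonneg hs,
        ← ENNReal.ofReal_mul (by positivity), ← ENNReal.ofReal_mul (by positivity)]
      congr 1
      rw [one_mul, one_mul, ← Real.exp_add, ← mul_assoc, one_div_mul_cancel (by norm_num), one_mul]
      congr 1
      ring
  simp_rw [h1]
  rw [lintegral_const_mul' _ _ ENNReal.ofReal_ne_top, lintegral_exponentialPDF_eq_one (by norm_num),
    mul_one]

/-- the four steps -/
def stp : Fin 4 → ℤ × ℤ := ![(1, 0), (-1, 0), (0, 1), (0, -1)]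

theorem exists_stp (a b : ℤ) (h : |a| + |b| = 1) : ∃ k, stp k = (a, b) := by
  have h1 : (a = 1 ∧ b = 0) ∨ (a = -1 ∧ b = 0) ∨ (a = 0 ∧ b = 1) ∨ (a = 0 ∧ b = -1) := by
    rcases abs_cases a with ⟨h2, h3⟩ | ⟨h2, h3⟩ <;> rcases abs_cases b with ⟨h4, h5⟩ | ⟨h4, h5⟩ <;>
      rw [h2, h4] at h <;> omega
  rcases h1 with ⟨rfl, rfl⟩ | ⟨rfl, rfl⟩ | ⟨rfl, rfl⟩ | ⟨rfl, rfl⟩
  · exact ⟨0, rfl⟩
  · exact ⟨1, rfl⟩
  · exact ⟨2, rfl⟩
  · exact ⟨3, rfl⟩

/-- the path of a step sequence -/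
def pth {n : ℕ} (σ : Fin n → Fin 4) (i : ℕ) : ℤ × ℤ :=
  ∑ j ∈ Finset.range i, if h : j < n then stp (σ ⟨j, h⟩) else 0

theorem exists_seq (n : ℕ) (p : ℕ → ℤ × ℤ) (h0 : p 0 = 0)
    (h : ∀ i < n, |(p (i + 1)).1 - (p i).1| + |(p (i + 1)).2 - (p i).2| = 1) :
    ∃ σ : Fin n → Fin 4, ∀ i ≤ n, pth σ i = p i := by
  have h1 : ∀ i : Fin n, ∃ k, stp k = p ((i : ℕ) + 1) - p i := by
    intro i
    obtain ⟨k, hk⟩ := exists_stp _ _ (h i i.2)
    exact ⟨k, hk⟩
  choose σ hσ using h1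
  refine ⟨σ, fun i => ?_⟩
  induction i with
  | zero =>
    intro _
    simp [pth, h0]
  | succ i ih =>
    intro hi
    have h2 := ih (by omega)
    unfold pth at h2 ⊢
    rw [Finset.sum_range_succ, h2, dif_pos (by omega : i < n), hσ]
    simp

/-- the event of a step sequence -/
def Ev {Ω : Type} (X : Sym2 (ℤ × ℤ) → Ω → ℝ) {n : ℕ} (σ : Fin n → Fin 4) : Set Ω :=
  {ω | (∀ i ≤ n, ∀ j ≤ n, pth σ i = pth σ j → i = j) ∧
    ∑ i ∈ Finset.range n, env X ω s(pth σ i, pth σ (i + 1)) ≤ 1 / 25 * n}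

theorem inj_edges (n : ℕ) (q : ℕ → ℤ × ℤ) (hq : ∀ i ≤ n, ∀ j ≤ n, q i = q j → i = j) :
    Function.Injective fun i : Fin n => s(q i, q ((i : ℕ) + 1)) := by
  intro i j hij
  rcases Sym2.eq_iff.1 hij with ⟨h1, _⟩ | ⟨h1, h2⟩
  · exact Fin.ext (hq i i.2.le j j.2.le h1)
  · have h3 := hq i i.2.le (j + 1) j.2 h1
    have h4 := hq (i + 1) i.2 j j.2.le h2
    omega

theorem exp_le : Real.exp (15 * (1 / 25)) ≤ 2 := by
  have h1 : (15 : ℝ) * (1 / 25) ≤ Real.log 2 := by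
    have := Real.log_two_gt_d9
    linarith
  calc Real.exp (15 * (1 / 25)) ≤ Real.exp (Real.log 2) := Real.exp_le_exp.2 h1
    _ = 2 := Real.exp_log two_pos

theorem ev_le {Ω : Type} [MeasureSpace Ω] [IsProbabilityMeasure (volume : Measure Ω)]
    (X : Sym2 (ℤ × ℤ) → Ω → ℝ) (hX : Iid X) {n : ℕ} (σ : Fin n → Fin 4) :
    (volume : Measure Ω) (Ev X σ) ≤ (1 / 8 : ℝ≥0∞) ^ n := by
  by_cases hq : ∀ i ≤ n, ∀ j ≤ n, pth σ i = pth σ j → i = j
  swap
  · have h1 : Ev X σ = ∅ := by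
      ext ω
      simp only [Ev, mem_setOf_eq, mem_empty_iff_false, iff_false]
      exact fun h => hq h.1
    rw [h1, measure_empty]
    exact zero_le
  set e : Fin n → Sym2 (ℤ × ℤ) := fun i => s(pth σ i, pth σ ((i : ℕ) + 1)) with he
  have hinj : Function.Injective e := inj_edges n _ hq
  set g : ℝ → ℝ≥0∞ := fun x => ENNReal.ofReal (Real.exp (-(15 * x))) with hg
  have hgm : Measurable g := by fun_prop
  have hind : iIndepFun (fun i : Fin n => g ∘ X (e i)) (volume : Measure Ω) :=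
    (hX.ind.precomp hinj).comp (fun _ => g) fun _ => hgm
  have hprod : ∫⁻ ω, ∏ i : Fin n, (g ∘ X (e i)) ω ∂(volume : Measure Ω) =
      (ENNReal.ofReal (1 / 16)) ^ n := by
    rw [lintegral_prod_eq_prod_lintegral_of_indepFun Finset.univ _ hind
      fun i => hgm.comp (hX.meas _)]
    have h1 : ∀ i : Fin n, ∫⁻ ω, (g ∘ X (e i)) ω ∂(volume : Measure Ω) =
        ENNReal.ofReal (1 / 16) := by
      intro i
      rw [← laplace15, ← hX.law (e i), lintegral_map hgm (hX.meas _)]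
      rfl
    rw [Finset.prod_congr rfl fun i _ => h1 i]
    simp
  set c : ℝ≥0∞ := ENNReal.ofReal (Real.exp (-(15 * (1 / 25 * (n : ℝ))))) with hc
  have hsub : Ev X σ ⊆ {ω | c ≤ ∏ i : Fin n, (g ∘ X (e i)) ω} := by
    intro ω hω
    have h2 : ∑ i : Fin n, X (e i) ω ≤ 1 / 25 * n := by
      have h3 := hω.2
      rw [Finset.sum_range] at h3
      exact h3
    have h4 : ∏ i : Fin n, (g ∘ X (e i)) ω =
        ENNReal.ofReal (Real.exp (-(15 * ∑ i : Fin n, X (e i) ω))) := by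
      simp only [hg, Function.comp]
      rw [← ENNReal.ofReal_prod_of_nonneg (fun i _ => (Real.exp_pos _).le), ← Real.exp_sum]
      congr 2
      rw [Finset.mul_sum, Finset.sum_neg_distrib]
    rw [mem_setOf_eq, h4, hc]
    apply ENNReal.ofReal_le_ofReal
    apply Real.exp_le_exp.2
    linarith
  have hmeas : Measurable fun ω => ∏ i : Fin n, (g ∘ X (e i)) ω :=
    Finset.measurable_prod _ fun i _ => hgm.comp (hX.meas _)
  have hc0 : c ≠ 0 := by
    rw [hc]
    simp [Real.exp_pos]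
  have hct : c ≠ ⊤ := ENNReal.ofReal_ne_top
  have h5 := meas_ge_le_lintegral_div (μ := (volume : Measure Ω)) hmeas.aemeasurable hc0 hct
  rw [hprod] at h5
  refine (measure_mono hsub).trans (h5.trans ?_)
  have h6 : c⁻¹ = ENNReal.ofReal (Real.exp (15 * (1 / 25)) ^ n) := by
    rw [hc, ← ENNReal.ofReal_inv_of_pos (Real.exp_pos _), ← Real.exp_neg, neg_neg,
      ← Real.exp_nat_mul]
    congr 2
    ring
  rw [ENNReal.div_eq_inv_mul, h6, ← ENNReal.ofReal_pow (by norm_num), ← ENNReal.ofReal_mul (by positivity),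
    ← mul_pow]
  have h7 : (1 / 8 : ℝ≥0∞) = ENNReal.ofReal (1 / 8) := by
    rw [ENNReal.ofReal_div_of_pos (by norm_num)]
    simp
  rw [h7, ← ENNReal.ofReal_pow (by norm_num)]
  apply ENNReal.ofReal_le_ofReal
  apply pow_le_pow_left₀ (by positivity)
  have := exp_le
  linarith

theorem t_CNT : S_CNT := by
  intro Ω _ _ X hX n
  have hsub : {ω | Fast (env X ω) n} ⊆ ⋃ σ : Fin n → Fin 4, Ev X σ := by
    intro ω hω
    obtain ⟨p, h0, h1, h2, h3⟩ := hω
    obtain ⟨σ, hσ⟩ := exists_seq n p h0 h1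
    refine mem_iUnion.2 ⟨σ, ?_, ?_⟩
    · intro i hi j hj hij
      rw [hσ i hi, hσ j hj] at hij
      exact h2 i hi j hj hij
    · refine le_of_eq_of_le (Finset.sum_congr rfl fun i hi => ?_) h3
      rw [Finset.mem_range] at hi
      rw [hσ i hi.le, hσ (i + 1) hi]
  calc (volume : Measure Ω) {ω | Fast (env X ω) n}
      ≤ (volume : Measure Ω) (⋃ σ : Fin n → Fin 4, Ev X σ) := measure_mono hsub
    _ ≤ ∑ σ : Fin n → Fin 4, (volume : Measure Ω) (Ev X σ) := measure_iUnion_fintype_le _ _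
    _ ≤ ∑ _σ : Fin n → Fin 4, (1 / 8 : ℝ≥0∞) ^ n := Finset.sum_le_sum fun σ _ => ev_le X hX σ
    _ = (4 * (1 / 8 : ℝ≥0∞)) ^ n := by
      rw [Finset.sum_const, Finset.card_univ, Fintype.card_fun, Fintype.card_fin, Fintype.card_fin,
        nsmul_eq_mul, mul_pow]
      push_cast
      rfl
    _ = (1 / 2 : ℝ≥0∞) ^ n := by
      congr 1
      rw [show (4 : ℝ≥0∞) = ENNReal.ofReal 4 by simp, show (1 / 8 : ℝ≥0∞) = ENNReal.ofReal (1 / 8) by
        rw [ENNReal.ofReal_div_of_pos (by norm_num)]; simp,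
        show (1 / 2 : ℝ≥0∞) = ENNReal.ofReal (1 / 2) by
        rw [ENNReal.ofReal_div_of_pos (by norm_num)]; simp, ← ENNReal.ofReal_mul (by norm_num)]
      norm_num

end Pool.Agent.N896.FM
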